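import Pool.Agent.H53.UK.Targets

/-!
# Board uk_modules (MP_c62aed_lc), row LOU: few choices lose a part of a spread set in one step
-/

set_option autoImplicit false

namespace Pool.Agent.H30.UK

open Finset
open Pool.Agent.H53.UK

theorem lou_card_mono {T : Type} [Finite T] {P Q : T → Prop} (h : ∀ x, P x → Q x) :
    Nat.card {x // P x} ≤ Nat.card {x // Q x} :=
  Nat.card_le_card_of_injective (fun x : {x // P x} => (⟨x.1, h x.1 x.2⟩ : {x // Q x}))
    fun _ _ hxy => Subtype.ext (congrArg (fun z : {x // Q x} => z.1) hxy)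

theorem pf_LOU (hINU : T_INU) (hSVU : T_SVU) (hMGU : T_MGU) : T_LOU := by
  classical
  intro n k m μ H w s₀ d a E hH ha hμ hE hmu p hne hsp hpw 𝒟 hdis hcw hag
  obtain ⟨x0, hx0⟩ := hne
  obtain ⟨Q, hQ⟩ : ∃ Q : Finset (Fin n → Bool), Q = p.1 := ⟨_, rfl⟩
  rw [← hQ] at hx0 hsp
  have hQ0 : (0 : ℝ) < Q.card := by exact_mod_cast Finset.card_pos.2 ⟨x0, hx0⟩
  have ha0 : (0 : ℝ) < a := by exact_mod_cast ha
  have hμ0 : (0 : ℝ) < μ := by exact_mod_cast hμ
  obtain ⟨Nf, hNf⟩ : ∃ Nf : Fin m × Fin μ → Finset (Fin n → Bool), ∀ c z, z ∈ Nf c ↔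
      z ∈ Q ∧ ∃ p' ∈ 𝒟, z ∈ p'.1 ∧ InU H (p'.2, z) c :=
    ⟨fun c => Q.filter fun z => ∃ p' ∈ 𝒟, z ∈ p'.1 ∧ InU H (p'.2, z) c, fun c z => by
      rw [Finset.mem_filter]⟩
  obtain ⟨W, hW⟩ : ∃ W : Fin m × Fin μ → ℝ, W = fun c =>
      if InU H (p.2, x0) c then 0 else 2 ^ d * ((Nf c).card : ℝ) / Q.card := ⟨_, rfl⟩
  have hWn : ∀ c, ¬ InU H (p.2, x0) c → W c = 2 ^ d * ((Nf c).card : ℝ) / Q.card := fun c hc => by
    rw [hW]
    exact if_neg hc
  have hW1 : ∀ c, 0 ≤ W c ∧ W c ≤ 1 := by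
    intro c
    by_cases hc : InU H (p.2, x0) c
    · have h0 : W c = 0 := by
        rw [hW]
        exact if_pos hc
      rw [h0]
      exact ⟨le_rfl, zero_le_one⟩
    · rw [hWn c hc]
      refine ⟨by positivity, ?_⟩
      rw [div_le_one hQ0]
      have h1 := hSVU H d s₀ w hH (p.2, x0) Q (hsp x0 hx0) hpw c hc
      have h2 : (Nf c).card ≤ Nat.card {y // y ∈ Q ∧ VC (H c) y} := by
        rw [Nat.card_eq_fintype_card, Fintype.card_subtype]
        refine Finset.card_le_card fun z hz => ?_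
        obtain ⟨h3, p', -, -, h4⟩ := (hNf c z).1 hz
        rw [Finset.mem_filter]
        exact ⟨Finset.mem_univ _, h3, h4.2⟩
      have h3 : 2 ^ d * (Nf c).card ≤ Q.card := by
        calc 2 ^ d * (Nf c).card ≤ 2 ^ d * Nat.card {y // y ∈ Q ∧ VC (H c) y} :=
              Nat.mul_le_mul_left _ h2
          _ ≤ Q.card := by rw [mul_comm]; exact h1
      exact_mod_cast h3
  have hN : ∑ c, (Nf c).card ≤ Q.card * s₀ := by
    have h1 : ∀ c, (Nf c).card = ∑ z ∈ Q, if z ∈ Nf c then 1 else 0 := by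
      intro c
      rw [← Finset.card_filter]
      congr 1
      ext z
      rw [Finset.mem_filter]
      exact ⟨fun h => ⟨((hNf c z).1 h).1, h⟩, fun h => h.2⟩
    rw [Finset.sum_congr rfl fun c _ => h1 c, Finset.sum_comm, ← smul_eq_mul,
      ← Finset.sum_const]
    refine Finset.sum_le_sum fun z _ => ?_
    rw [← Finset.card_filter]
    by_cases hz : ∃ p' ∈ 𝒟, z ∈ p'.1
    · obtain ⟨p', hp', hzp⟩ := hz
      have h2 : cnU H (p'.2, z) ≤ s₀ := hH (p'.2, z) ((hcw p' hp').le.trans (Nat.le_add_right _ _))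
      unfold cnU at h2
      rw [Nat.card_eq_fintype_card, Fintype.card_subtype] at h2
      refine le_trans (Finset.card_le_card fun c hc => ?_) h2
      rw [Finset.mem_filter] at hc
      obtain ⟨-, p'', hp'', hz'', hI⟩ := (hNf c z).1 hc.2
      have h3 : p'' = p' := by
        by_contra hne
        exact Finset.disjoint_left.1 (hdis p'' hp'' p' hp' hne) hz'' hzp
      rw [Finset.mem_filter]
      rw [h3] at hI
      exact ⟨Finset.mem_univ _, hI⟩
    · rw [Finset.filter_eq_empty_iff.2]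
      · exact Nat.zero_le _
      · intro c _ hc
        obtain ⟨-, p'', hp'', hz'', -⟩ := (hNf c z).1 hc
        exact hz ⟨p'', hp'', hz''⟩
  have hS : ∑ c, W c ≤ 2 ^ d * s₀ := by
    calc ∑ c, W c ≤ ∑ c, 2 ^ d * ((Nf c).card : ℝ) / Q.card := by
          refine Finset.sum_le_sum fun c _ => ?_
          by_cases hc : InU H (p.2, x0) c
          · have h0 : W c = 0 := by
              rw [hW]
              exact if_pos hc
            rw [h0]
            positivity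
          · rw [hWn c hc]
      _ = 2 ^ d * (∑ c, ((Nf c).card : ℝ)) / Q.card := by
          rw [← Finset.sum_div, ← Finset.mul_sum]
      _ ≤ 2 ^ d * (Q.card * s₀) / Q.card := by
          have h1 : (∑ c, ((Nf c).card : ℝ)) ≤ Q.card * s₀ := by exact_mod_cast hN
          exact div_le_div_of_nonneg_right (mul_le_mul_of_nonneg_left h1 (by positivity)) hQ0.le
      _ = 2 ^ d * s₀ := by
          field_simp
  obtain ⟨V, hV⟩ : ∃ V : ℝ, V = 2 ^ d / a := ⟨_, rfl⟩
  have hM := hMGU (m := m) (μ := μ) W (2 ^ d * s₀) V hμ hW1 hS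
  have hmono : Nat.card {r : Fin m → Fin μ // ¬ RgU H (AL r) a p 𝒟} ≤
      Nat.card {r : Fin m → Fin μ // V ≤ ∑ j, W (j, r j)} := by
    refine lou_card_mono fun r hr => ?_
    unfold RgU at hr
    rw [not_or, not_le, ← hQ] at hr
    obtain ⟨hno, hbig⟩ := hr
    have hnl : ∀ j, ¬ InU H (p.2, x0) (j, r j) := fun j hj => hno ⟨x0, hx0, (j, r j), rfl, hj⟩
    have h1 : (Q ∩ hpU H (AL r) 𝒟) ⊆ Finset.univ.biUnion fun j => Nf (j, r j) := by
      intro z hz
      rw [Finset.mem_inter] at hz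
      obtain ⟨hzQ, hzh⟩ := hz
      unfold hpU at hzh
      rw [Finset.mem_biUnion] at hzh
      obtain ⟨p', hp', hzp⟩ := hzh
      rw [Finset.mem_filter] at hp'
      obtain ⟨hp'D, x, hx, c, hc, hl⟩ := hp'
      have hc' : c = (c.1, r c.1) := by
        have : r c.1 = c.2 := hc
        rw [this]
      rw [hc'] at hl
      rw [Finset.mem_biUnion]
      exact ⟨c.1, Finset.mem_univ _, (hNf (c.1, r c.1) z).2 ⟨hzQ, p', hp'D, hzp,
        ((hINU H d s₀ p'.2 x z fun i hi => hag p' hp'D x hx z hzp i hi).1 _).1 hl⟩⟩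
    have h2 : (Q ∩ hpU H (AL r) 𝒟).card ≤ ∑ j, (Nf (j, r j)).card :=
      (Finset.card_le_card h1).trans Finset.card_biUnion_le
    have h3 : (Q.card : ℝ) ≤ a * ∑ j, ((Nf (j, r j)).card : ℝ) := by
      have h4 : Q.card ≤ a * ∑ j, (Nf (j, r j)).card := hbig.le.trans (Nat.mul_le_mul_left _ h2)
      exact_mod_cast h4
    have h5 : ∑ j, W (j, r j) = 2 ^ d * (∑ j, ((Nf (j, r j)).card : ℝ)) / Q.card := by
      rw [Finset.mul_sum, Finset.sum_div]
      exact Finset.sum_congr rfl fun j _ => hWn _ (hnl j)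
    rw [h5, hV, div_le_div_iff₀ ha0 hQ0]
    have h6 := mul_le_mul_of_nonneg_left h3 (by positivity : (0 : ℝ) ≤ 2 ^ d)
    linarith
  have hV0 : 0 ≤ V := by
    rw [hV]
    positivity
  have he : Real.exp (2 ^ d * s₀ / μ) ≤ (2 : ℝ) ^ (V / 2) := by
    have h1 : (2 ^ d * s₀ / μ : ℝ) ≤ V / 4 := by
      rw [hV, div_div, div_le_div_iff₀ hμ0 (by positivity)]
      have h2 : (4 * a * s₀ : ℝ) ≤ μ := by exact_mod_cast hmu
      have h3 := mul_le_mul_of_nonneg_left h2 (by positivity : (0 : ℝ) ≤ 2 ^ d)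
      linarith
    rw [Real.rpow_def_of_pos (by norm_num)]
    refine Real.exp_le_exp.2 (h1.trans ?_)
    have h2 : (1 / 2 : ℝ) ≤ Real.log 2 := by linarith [Real.log_two_gt_d9]
    have h3 := mul_le_mul_of_nonneg_right h2 (by positivity : 0 ≤ V / 2)
    linarith
  have hE2 : (2 : ℝ) ^ E ≤ (2 : ℝ) ^ (V / 2) := by
    rw [← Real.rpow_natCast]
    refine Real.rpow_le_rpow_of_exponent_le (by norm_num) ?_
    rw [hV, div_div, le_div_iff₀ (by positivity)]
    have h1 : (2 * a * E : ℝ) ≤ 2 ^ d := by exact_mod_cast hE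
    linarith
  have hC0 : (0 : ℝ) ≤ Nat.card (Fin m → Fin μ) := Nat.cast_nonneg _
  have hpos : (0 : ℝ) < 2 ^ (V / 2) := Real.rpow_pos_of_pos (by norm_num) _
  have hfin : (Nat.card {r : Fin m → Fin μ // ¬ RgU H (AL r) a p 𝒟} : ℝ) * 2 ^ (V / 2) ≤
      Nat.card (Fin m → Fin μ) := by
    have h1 : (2 : ℝ) ^ V = 2 ^ (V / 2) * 2 ^ (V / 2) := by
      rw [← Real.rpow_add (by norm_num)]
      congr 1
      ring
    have h2 : (Nat.card {r : Fin m → Fin μ // ¬ RgU H (AL r) a p 𝒟} : ℝ) ≤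
        Nat.card {r : Fin m → Fin μ // V ≤ ∑ j, W (j, r j)} := by exact_mod_cast hmono
    have h3 : (Nat.card {r : Fin m → Fin μ // ¬ RgU H (AL r) a p 𝒟} : ℝ) * 2 ^ V ≤
        2 ^ (V / 2) * Nat.card (Fin m → Fin μ) :=
      (mul_le_mul_of_nonneg_right h2 (Real.rpow_nonneg (by norm_num) _)).trans
        (hM.trans (mul_le_mul_of_nonneg_right he hC0))
    rw [h1] at h3
    have h4 : 2 ^ (V / 2) * ((Nat.card {r : Fin m → Fin μ // ¬ RgU H (AL r) a p 𝒟} : ℝ) *
        2 ^ (V / 2)) ≤ 2 ^ (V / 2) * Nat.card (Fin m → Fin μ) := by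
      linarith
    exact le_of_mul_le_mul_left h4 hpos
  have hfin2 : (Nat.card {r : Fin m → Fin μ // ¬ RgU H (AL r) a p 𝒟} : ℝ) * 2 ^ E ≤
      Nat.card (Fin m → Fin μ) :=
    (mul_le_mul_of_nonneg_left hE2 (Nat.cast_nonneg _)).trans hfin
  exact_mod_cast hfin2

end Pool.Agent.H30.UK
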