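import Pool.Agent.H53.UK.Targets

/-!
MP_c62aed_lc, uniformly random formulas: Lemma X (the exceptions of a chain).
-/

set_option autoImplicit false

namespace Pool.Agent.H30.UK

open Finset
open Pool.Agent.H53.MW (cb)
open Pool.Agent.H53.UK

theorem pf_LXU (hINU : T_INU) (hHCU : T_HCU) : T_LXU := by
  classical
  intro n k ι H d s₀ θ 𝒞 h𝒞
  set Z : Finset (Fin n → Bool) := univ.filter fun x => ∃ B ∈ 𝒞, x ∈ ErrU H d s₀ θ B with hZ
  have hcard : Nat.card {x : Fin n → Bool // ∃ B ∈ 𝒞, x ∈ ErrU H d s₀ θ B} = Z.card := by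
    rw [Nat.card_eq_fintype_card, Fintype.card_subtype]
  rw [hcard]
  by_cases hne : Z.Nonempty
  swap
  · rw [Finset.not_nonempty_iff_eq_empty] at hne
    rw [hne]
    simp
  obtain ⟨A, x, hSp, hle⟩ := hHCU H d s₀ Z hne
  have key : (cb Z A x).card < θ := by
    by_contra hcon
    rw [not_lt] at hcon
    -- the members of the chain whose kernel does not contain `(A, x)`
    let 𝒟 : Finset (Finset (Fin n → Bool)) :=
      univ.filter fun B => B ∈ 𝒞 ∧ (A, x) ∉ KerU H d s₀ θ B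
    have hmem : ∀ y ∈ cb Z A x, ∃ B ∈ 𝒟, y ∈ B := by
      intro y hy
      have hy' := hy
      unfold cb at hy'
      rw [Finset.mem_filter] at hy'
      obtain ⟨hyZ, hyA⟩ := hy'
      rw [hZ, Finset.mem_filter] at hyZ
      obtain ⟨-, B, hB, hyB⟩ := hyZ
      unfold ErrU at hyB
      rw [Finset.mem_filter] at hyB
      refine ⟨B, ?_, hyB.1⟩
      rw [Finset.mem_filter]
      refine ⟨Finset.mem_univ _, hB, ?_⟩
      rintro ⟨Q, hQB, hQ, hθ⟩
      exact hyB.2 A ⟨Q, hQB, (hINU H d s₀ A x y fun i hi => (hyA i hi).symm).2.2 Q hQ, hθ⟩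
    obtain ⟨y₀, hy₀⟩ := hSp.ne
    obtain ⟨B₀, hB₀, -⟩ := hmem y₀ hy₀
    obtain ⟨B', hB', hmax⟩ := 𝒟.exists_max_image Finset.card ⟨B₀, hB₀⟩
    have hB'2 := (Finset.mem_filter.1 hB').2
    have hsub : cb Z A x ⊆ B' := by
      intro y hy
      obtain ⟨B, hB, hyB⟩ := hmem y hy
      have hB2 := (Finset.mem_filter.1 hB).2
      rcases h𝒞.total hB2.1 hB'2.1 with h | h
      · exact h hyB
      · have := Finset.eq_of_subset_of_card_le h (hmax B hB)
        rw [this]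
        exact hyB
    exact hB'2.2 ⟨cb Z A x, hsub, hSp, hcon⟩
  calc Z.card ≤ (cb Z A x).card * 2 ^ (d * s₀) := hle
    _ ≤ θ * 2 ^ (d * s₀) := Nat.mul_le_mul_right _ key.le
    _ = 2 ^ (d * s₀) * θ := Nat.mul_comm _ _

end Pool.Agent.H30.UK
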